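import Pool.Agent.Helper36.HS.GoalsL
import Pool.Agent.Helper36.SP.L2LIM
import Pool.Agent.Helper67.SP.RegBase
import Pool.Agent.Helper9.SP.ReglB

/-! # Packet HS-GLU: existence of the weak derivative -/

open Complex Metric Set Filter Topology MeasureTheory
open scoped ContDiff ComplexConjugate ComplexOrder Manifold

namespace Pool.Agent.Helper60.HS

open Pool.Agent.Helper95.Lin Pool.Agent.Helper16.Abund Pool.Agent.Helper92.Orb
  Pool.Agent.Helper10.SP Pool.Agent.Helper36.HS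
open Pool.Agent.Helper67.SP (TC tc_cd tc_mul tc_setIntegral tc_integrable integral_fderiv_tc
  contDiffOn_cd integral_cdb_tc memLp_on tendsto_mul_int)

variable {n : ℕ}

theorem dz_congr {f g : Cn n → ℂ} {x : Cn n} (h : f =ᶠ[𝓝 x] g) (a : Fin n × Bool) :
    dz a f x = dz a g x := by
  unfold dz
  split_ifs
  · exact Pool.Agent.Helper9.SP.cdb_congr h _
  · exact Pool.Agent.Helper9.SP.cd_congr h _

theorem dz_contDiff {f : Cn n → ℂ} (hf : ContDiff ℝ ∞ f) (a : Fin n × Bool) :
    ContDiff ℝ ∞ (dz a f) := by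
  unfold dz
  split_ifs
  · exact Pool.Agent.Helper9.SP.cdb_contDiff hf _
  · exact Pool.Agent.Helper9.SP.cd_contDiff hf _

theorem dz_tc {T : Set (Cn n)} {f : Cn n → ℂ} (hf : TC T f) (a : Fin n × Bool) :
    TC T (dz a f) := by
  unfold dz
  split_ifs
  · exact (tc_cd hf _).2
  · exact (tc_cd hf _).1

theorem dz_mul {f g : Cn n → ℂ} {x : Cn n} (hf : DifferentiableAt ℝ f x)
    (hg : DifferentiableAt ℝ g x) (a : Fin n × Bool) :
    dz a (fun y => f y * g y) x = f x * dz a g x + g x * dz a f x := by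
  unfold dz
  split_ifs
  · exact Pool.Agent.Helper9.SP.cdb_mul hf hg _
  · unfold cd
    rw [fderiv_fun_mul hf hg]
    simp only [_root_.add_apply, smul_apply, smul_eq_mul]
    ring

theorem int_dz {T : Set (Cn n)} {φ : Cn n → ℂ} (hφ : TC T φ) (a : Fin n × Bool) :
    ∫ x, dz a φ x = 0 := by
  unfold dz
  split_ifs
  · exact integral_cdb_tc hφ _
  · unfold cd
    obtain ⟨h1, h2⟩ := integral_fderiv_tc hφ (Pi.single a.1 1)
    obtain ⟨h3, h4⟩ := integral_fderiv_tc hφ (Pi.single a.1 I)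
    rw [integral_sub h1 (h3.const_mul I), integral_const_mul, h2, h4]
    simp

theorem ibp_dz {T : Set (Cn n)} (hT : IsOpen T) {s φ : Cn n → ℂ} (hs : ContDiff ℝ ∞ s)
    (hφ : TC T φ) (a : Fin n × Bool) :
    ∫ x in T, s x * dz a φ x = - ∫ x in T, dz a s x * φ x := by
  have h1 := tc_mul hT hφ hs.contDiffOn
  have h2 := int_dz h1 a
  have h3 : ∀ x ∈ T, dz a (fun y => s y * φ y) x = s x * dz a φ x + φ x * dz a s x :=
    fun x _ => dz_mul (hs.differentiable (by simp) x) (hφ.smooth.differentiable (by simp) x) a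
  have h4 : TC T (fun x => s x * dz a φ x) := tc_mul hT (dz_tc hφ a) hs.contDiffOn
  have h5 : TC T (fun x => dz a s x * φ x) := tc_mul hT hφ (dz_contDiff hs a).contDiffOn
  rw [← tc_setIntegral (dz_tc h1 a), setIntegral_congr_fun hT.measurableSet h3,
    integral_add (tc_integrable h4).integrableOn] at h2
  · have e : ∫ x in T, dz a s x * φ x = ∫ x in T, φ x * dz a s x :=
      integral_congr_ae (Eventually.of_forall fun x => mul_comm _ _)
    rw [e]
    exact eq_neg_of_add_eq_zero_left h2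
  · have := (tc_integrable h5).integrableOn (s := T)
    refine this.congr (Eventually.of_forall fun x => ?_)
    exact mul_comm _ _

/-- A compact exhaustion. -/
def Ke (T : Set (Cn n)) (j : ℕ) : Set (Cn n) :=
  closedBall 0 (j : ℝ) ∩ (thickening (1 / ((j : ℝ) + 1)) Tᶜ)ᶜ

theorem Ke_compact (T : Set (Cn n)) (j : ℕ) : IsCompact (Ke T j) :=
  (isCompact_closedBall 0 (j : ℝ)).inter_right isOpen_thickening.isClosed_compl

theorem Ke_sub (T : Set (Cn n)) (j : ℕ) : Ke T j ⊆ T := by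
  intro x hx
  by_contra h
  exact hx.2 (self_subset_thickening (by positivity) _ h)

theorem Ke_exh {T : Set (Cn n)} (hT : IsOpen T) {C : Set (Cn n)} (hC : IsCompact C) (hCT : C ⊆ T) :
    ∃ J : ℕ, ∀ j ≥ J, C ⊆ Ke T j := by
  obtain ⟨δ, hδ, hδT⟩ := hC.exists_thickening_subset_open hT hCT
  obtain ⟨R, hR⟩ := hC.isBounded.subset_closedBall 0
  obtain ⟨J1, hJ1⟩ := exists_nat_ge R
  obtain ⟨J2, hJ2⟩ := exists_nat_one_div_lt hδ
  refine ⟨max J1 J2, fun j hj x hx => ⟨?_, ?_⟩⟩
  · have h1 := hR hx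
    rw [mem_closedBall] at h1 ⊢
    have h2 : (J1 : ℝ) ≤ j := by exact_mod_cast (le_max_left _ _).trans hj
    linarith
  · intro h
    rw [mem_thickening_iff] at h
    obtain ⟨z, hz, hd⟩ := h
    apply hz
    apply hδT
    rw [mem_thickening_iff]
    refine ⟨x, hx, ?_⟩
    rw [dist_comm]
    have h2 : (J2 : ℝ) ≤ j := by exact_mod_cast (le_max_right _ _).trans hj
    have h3 : 1 / ((j : ℝ) + 1) ≤ 1 / ((J2 : ℝ) + 1) := by gcongr
    linarith

theorem mollc_congr {f g : Cn n → ℂ} {ε δ : ℝ} (hε : 0 < ε) (hεδ : ε < δ) {x : Cn n}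
    (h : ∀ y ∈ ball x δ, f y = g y) : mollc f ε x = mollc g ε x := by
  unfold mollc
  refine integral_congr_ae (Eventually.of_forall fun y => ?_)
  show f (x - y) * (mol n ε y : ℂ) = g (x - y) * (mol n ε y : ℂ)
  by_cases hy : mol n ε y = 0
  · rw [hy]; simp
  · have h1 := Pool.Agent.Helper67.Lin.norm_lt_of_mol hε hy
    rw [h (x - y) ?_]
    rw [mem_ball, dist_eq_norm]
    have : x - y - x = -y := by ring
    rw [this, norm_neg]
    linarith

theorem glu (hMOL2 : S_MOL2) : S_GLU := by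
  intro n T hT f hf a hMC
  set s : ℕ → Cn n → ℂ := fun j => mollc ((Ke T j).indicator f) (1 / ((j : ℝ) + 1)) with hs
  have hind : ∀ C : Set (Cn n), IsCompact C → C ⊆ T → MemLp (C.indicator f) 2 volume := by
    intro C hC hCT
    exact (memLp_indicator_iff_restrict hC.measurableSet).2 (hf C hCT hC)
  have hpos : ∀ j : ℕ, (0 : ℝ) < 1 / ((j : ℝ) + 1) := fun j => by positivity
  have hsm : ∀ j, ContDiff ℝ ∞ (s j) := fun j =>
    ((hMOL2 _ (hind _ (Ke_compact T j) (Ke_sub T j))).1 _ (hpos j)).1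
  have hto : Tendsto (fun j : ℕ => 1 / ((j : ℝ) + 1)) atTop (𝓝[>] 0) :=
    tendsto_nhdsWithin_iff.2 ⟨tendsto_one_div_add_atTop_nhds_zero_nat,
      Eventually.of_forall fun j => hpos j⟩
  -- comparison with a local mollification
  have key : ∀ C ⊆ T, IsCompact C → ∃ C₁ : Set (Cn n), IsCompact C₁ ∧ C ⊆ interior C₁ ∧ C₁ ⊆ T ∧
      ∃ J : ℕ, ∀ j ≥ J, ∀ x ∈ C,
        s j =ᶠ[𝓝 x] mollc (C₁.indicator f) (1 / ((j : ℝ) + 1)) := by
    intro C hCT hC
    obtain ⟨δ, hδ, hδT⟩ := hC.exists_cthickening_subset_open hT hCT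
    refine ⟨cthickening δ C, hC.cthickening, ?_, hδT, ?_⟩
    · exact (self_subset_thickening hδ C).trans
        (interior_maximal (thickening_subset_cthickening _ _) isOpen_thickening)
    · obtain ⟨J1, hJ1⟩ := Ke_exh hT hC.cthickening hδT
      obtain ⟨J2, hJ2⟩ := exists_nat_one_div_lt (half_pos hδ)
      refine ⟨max J1 J2, fun j hj x hx => ?_⟩
      have h1 := hJ1 j ((le_max_left _ _).trans hj)
      have h2 : (J2 : ℝ) ≤ j := by exact_mod_cast (le_max_right _ _).trans hj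
      have h3 : 1 / ((j : ℝ) + 1) ≤ 1 / ((J2 : ℝ) + 1) := by gcongr
      filter_upwards [ball_mem_nhds x (half_pos hδ)] with z hz
      refine mollc_congr (hpos j) (lt_of_le_of_lt h3 hJ2) fun y hy => ?_
      have h4 : y ∈ cthickening δ C := by
        apply thickening_subset_cthickening
        rw [mem_thickening_iff]
        refine ⟨x, hx, ?_⟩
        rw [mem_ball] at hy hz
        linarith [dist_triangle y z x]
      rw [indicator_of_mem (h1 h4), indicator_of_mem h4]
  -- the limit of the derivatives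
  have hcau : ∀ C ⊆ T, IsCompact C → ∀ ε > 0, ∃ J, ∀ i ≥ J, ∀ j ≥ J,
      ∫ x in C, ‖dz a (s i) x - dz a (s j) x‖ ^ 2 ≤ ε := by
    intro C hCT hC ε hε
    obtain ⟨C₁, hC₁, hCC₁, hC₁T, J, hJ⟩ := key C hCT hC
    obtain ⟨ε₀, hε₀, h0⟩ := hMC C C₁ hC hC₁ hCC₁ hC₁T ε hε
    obtain ⟨J2, hJ2⟩ := exists_nat_one_div_lt hε₀
    refine ⟨max J J2, fun i hi j hj => ?_⟩
    have hlt : ∀ i : ℕ, i ≥ max J J2 → 1 / ((i : ℝ) + 1) < ε₀ := by
      intro i hi
      have h2 : (J2 : ℝ) ≤ i := by exact_mod_cast (le_max_right _ _).trans hi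
      have h3 : 1 / ((i : ℝ) + 1) ≤ 1 / ((J2 : ℝ) + 1) := by gcongr
      linarith
    have h1 := h0 _ _ (hpos i) (hlt i hi) (hpos j) (hlt j hj)
    refine le_trans (le_of_eq ?_) h1
    refine setIntegral_congr_fun hC.measurableSet fun x hx => ?_
    show ‖dz a (s i) x - dz a (s j) x‖ ^ 2 = _
    rw [dz_congr (hJ i ((le_max_left _ _).trans hi) x hx) a,
      dz_congr (hJ j ((le_max_left _ _).trans hj) x hx) a]
  obtain ⟨g, hg⟩ := Pool.Agent.Helper36.SP.l2lim T hT (fun j => dz a (s j))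
    (fun j => (dz_contDiff (hsm j) a).continuous.continuousOn) hcau
  -- the limit of the functions
  have hlim : ∀ C ⊆ T, IsCompact C → Tendsto (fun j => ∫ x in C, ‖s j x - f x‖ ^ 2) atTop (𝓝 0) := by
    intro C hCT hC
    obtain ⟨C₁, hC₁, hCC₁, hC₁T, J, hJ⟩ := key C hCT hC
    obtain ⟨hM1, hM2⟩ := hMOL2 _ (hind C₁ hC₁ hC₁T)
    have h2 := hM2.comp hto
    refine squeeze_zero' (Eventually.of_forall fun j => integral_nonneg fun x => by positivity)
      ?_ h2
    filter_upwards [eventually_ge_atTop J] with j hj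
    have e1 : ∫ x in C, ‖s j x - f x‖ ^ 2 =
        ∫ x in C, ‖mollc (C₁.indicator f) (1 / ((j : ℝ) + 1)) x - C₁.indicator f x‖ ^ 2 := by
      refine setIntegral_congr_fun hC.measurableSet fun x hx => ?_
      show ‖s j x - f x‖ ^ 2 = _
      rw [(hJ j hj x hx).eq_of_nhds, indicator_of_mem (interior_subset (hCC₁ hx))]
    rw [e1]
    exact setIntegral_le_integral
      (Pool.Agent.Helper67.SP.memLp_sq ((hM1 _ (hpos j)).2.1.sub (hind C₁ hC₁ hC₁T)))
      (Eventually.of_forall fun x => by positivity)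
  refine ⟨g, fun C hCT hC => (hg C hCT hC).1, fun ζ hζ => ?_⟩
  have hζ' : TC T ζ := ⟨hζ.1, hζ.2.1, hζ.2.2⟩
  have hC : IsCompact (tsupport ζ) := hζ.2.1
  have hCT := hζ.2.2
  have hdz : TC T (dz a ζ) := dz_tc hζ' a
  -- restriction of integrals to the support
  have hres : ∀ (u φ : Cn n → ℂ), (∀ x ∉ tsupport ζ, φ x = 0) →
      ∫ x in T, u x * φ x = ∫ x in tsupport ζ, u x * φ x := by
    intro u φ hφ
    exact setIntegral_eq_of_subset_of_forall_sdiff_eq_zero hT.measurableSet hCT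
      fun x hx => by rw [hφ x hx.2, mul_zero]
  have hz1 : ∀ x ∉ tsupport ζ, dz a ζ x = 0 := by
    intro x hx
    unfold dz
    split_ifs
    · exact (Pool.Agent.Helper67.SP.cd_off hx _).2
    · exact (Pool.Agent.Helper67.SP.cd_off hx _).1
  have hz2 : ∀ x ∉ tsupport ζ, ζ x = 0 := fun x hx => image_eq_zero_of_notMem_tsupport hx
  have hlimit : ∀ (u : ℕ → Cn n → ℂ) (v φ : Cn n → ℂ), (∀ j, ContDiff ℝ ∞ (u j)) →
      ContDiff ℝ ∞ φ → MemLp v 2 (volume.restrict (tsupport ζ)) →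
      Tendsto (fun j => ∫ x in tsupport ζ, ‖u j x - v x‖ ^ 2) atTop (𝓝 0) →
      Tendsto (fun j => ∫ x in tsupport ζ, u j x * φ x) atTop (𝓝 (∫ x in tsupport ζ, v x * φ x)) := by
    intro u v φ hu hφ hv h
    have hum : ∀ j, MemLp (u j) 2 (volume.restrict (tsupport ζ)) := fun j =>
      memLp_on hC (hu j).continuous.continuousOn
    have hφm : MemLp φ 2 (volume.restrict (tsupport ζ)) := memLp_on hC hφ.continuous.continuousOn
    have h1 := tendsto_mul_int (fun j => (hum j).sub hv) hφm h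
    have h2 : ∀ j, ∫ x in tsupport ζ, (u j - v) x * φ x =
        (∫ x in tsupport ζ, u j x * φ x) - ∫ x in tsupport ζ, v x * φ x := by
      intro j
      have i1 : Integrable (fun x => u j x * φ x) (volume.restrict (tsupport ζ)) :=
        (hum j).integrable_mul hφm
      have i2 : Integrable (fun x => v x * φ x) (volume.restrict (tsupport ζ)) :=
        hv.integrable_mul hφm
      rw [← integral_sub i1 i2]
      refine integral_congr_ae (Eventually.of_forall fun x => ?_)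
      show (u j x - v x) * φ x = _
      ring
    simp only [h2] at h1
    have h3 := h1.add_const (∫ x in tsupport ζ, v x * φ x)
    simpa using h3
  have t1 := hlimit s f (dz a ζ) hsm hdz.smooth (hf _ hCT hC) (hlim _ hCT hC)
  have t2 := hlimit (fun j => dz a (s j)) g ζ (fun j => dz_contDiff (hsm j) a) hζ.1 (hg _ hCT hC).1
    (hg _ hCT hC).2
  have t3 : ∀ j, ∫ x in tsupport ζ, s j x * dz a ζ x = - ∫ x in tsupport ζ, dz a (s j) x * ζ x := by
    intro j
    rw [← hres _ _ hz1, ← hres _ _ hz2]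
    exact ibp_dz hT (hsm j) hζ' a
  rw [hres _ _ hz1, hres _ _ hz2]
  have t4 := t2.neg
  refine tendsto_nhds_unique t1 ?_
  refine t4.congr fun j => ?_
  exact (t3 j).symm

end Pool.Agent.Helper60.HS
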